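import Mathlib
import Pool.Agent.Q330.MS.SDefs
import Pool.Agent.Q330.MS.Final

set_option autoImplicit false

/-!
# MP_d8fb5e_lc, Q1: an efficient exact uniform sampler for simplicial spanning trees

There is an algorithm that, for the list `Δ` of the faces of a simplicial complex of dimension
`d ≥ 1`, outputs each spanning tree of `Δ` with probability exactly `1 / |T(Δ)|`, and whose expected
running time is bounded by a polynomial in the number of faces.

Idea of the proof. Run the basis exchange walk (with `R` coin flips in total) for so long that it
has each basis with probability at most `2 ^ K / (2 ^ K - 1)` times the uniform probability, where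
`K = (m + 1) ^ 2`. Then flip `K` trigger coins. If one of them shows heads (probability
`1 - 2 ^ (-K)`), output the result of the walk. Otherwise compute, in time `2 ^ (O(m))` times a
polynomial, the exact law of the result of the walk, and sample from the remaining (nonnegative)
weights, which is exactly possible by the interval algorithm since they are rational numbers. The
expensive case is so rare that the expected running time stays polynomial.
-/

namespace Pool.Agent.Results.MP_d8fb5e_lc.ExactSampler

open Pool.Agent.NPC Pool.Agent.Q330.MS

/-- **MP_d8fb5e_lc, Q1.** There is an efficient exact uniform sampler for the spanning trees of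
simplicial complexes. -/
theorem result : ∃ D : List (List ℕ) × List Bool → Option (List (List ℕ)),
    ExactSampler (fun Δ : List (List ℕ) => ∃ d, 1 ≤ d ∧ IsComplex Δ d)
      (fun Δ => {Υ | ∃ d, IsComplex Δ d ∧ IsTree Δ d Υ}) List.length D :=
  ⟨cxD, cx_sampler⟩

end Pool.Agent.Results.MP_d8fb5e_lc.ExactSampler
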